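import Pool.Agent.helper43.BMH.Spec

set_option autoImplicit false

/-!
# Row bmh:SPA
-/

namespace Pool.Agent.helper43.BMH

open scoped ENNReal

theorem t_spa (hp : PAI) (hc : CPS) (ho : ORB) (hl : POL) : SPA := by
  intro φ hφ
  obtain ⟨κ, hκ0, hκ1, hk⟩ := hc φ hφ
  refine ⟨κ, hκ0, hκ1, fun lam hlam B η hη => ?_⟩
  obtain ⟨δ, hδ, h1⟩ := hk lam hlam (η / 2) (by linarith)
  obtain ⟨n₀, h2⟩ := hl (B + 1) 0 (η / 2) (by linarith)
  refine ⟨δ, hδ, max n₀ 1, ?_⟩
  intro ι _ _ T hT hn D hD z hz hs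
  have hn0 : n₀ ≤ Fintype.card ι := (le_max_left _ _).trans hn
  have hn1 : 0 < Fintype.card ι := lt_of_lt_of_le (by norm_num) ((le_max_right _ _).trans hn)
  have hne : Nonempty ι := Fintype.card_pos_iff.1 hn1
  have e1 := hp ι T B z lam D hz
  have e2 := h1 ι T hT D hD (orb z) (fun u hu => by
    rw [(ho ι z u hu).2.1]
    exact hs)
  have e3 := h2 _ hn0
  rw [pow_zero, mul_one] at e3
  set n : ℝ := (Fintype.card ι : ℝ) with hnn
  have hnr : 0 ≤ n := Nat.cast_nonneg _
  have hexp : (0 : ℝ) < Real.exp 1 := Real.exp_pos 1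
  have e4 : (Real.exp 1 * n) ^ (B + 1) ≤ Real.exp (η / 2 * n) := by
    refine le_trans (pow_le_pow_left₀ (by positivity) ?_ _) e3
    exact mul_le_mul_of_nonneg_left (by linarith) hexp.le
  refine e1.trans ?_
  calc (Fintype.card (SP ι) : ℝ) * (Real.exp 1 * n) ^ (B + 1) * Real.exp (-n * ent z) *
        ∑ u ∈ orb z, (cnt T lam D u : ℝ)
      ≤ (Fintype.card (SP ι) : ℝ) * Real.exp (η / 2 * n) * Real.exp (-n * ent z) *
        Real.exp ((φ + η / 2) * n) := by
        refine mul_le_mul ?_ e2 (Finset.sum_nonneg fun u _ => Nat.cast_nonneg _) (by positivity)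
        exact mul_le_mul_of_nonneg_right (mul_le_mul_of_nonneg_left e4 (Nat.cast_nonneg _))
          (Real.exp_pos _).le
    _ = (Fintype.card (SP ι) : ℝ) * Real.exp (-n * (ent z - φ - η)) := by
        rw [mul_assoc, mul_assoc, ← Real.exp_add, ← Real.exp_add]
        congr 2
        ring

end Pool.Agent.helper43.BMH
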